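import Mathlib
import Pool.Agent.TC75.Bound

/-!
# The number of tiles in the cube is at least `c n^(d(d-1)/2) (3^(1/3))^(n^d)` for `3 ∣ n`

There are about `n^(d(d-1)/2)` lattices of index `n^d / 3` in `ℤ^d` all of whose cosets have exactly
three points in `[n]^d`, `n = 3 s`: the lattices generated by `(s, a)` with `a ∈ {1, ..., n-1}^(d-1)`
and by a lattice in `ℤ^(d-1)` for which the cube `[n]^(d-1)` is a system of representatives. Each of
them has `3^(n^d / 3)` systems of representatives in the cube, and two different lattices have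
at most `(8/9)^s 3^(n^d / 3)` common ones. So the exponent `d - 1` in Q2 is too small for `d ≥ 3`.
-/

set_option autoImplicit false

namespace Pool.Agent.Results.MP_13da68_co.ManyLattices

open Finset Pool.Agent.TC75

/-- The finite set `S ⊆ ℤ^d` tiles `ℤ^d` by translations: for some `T ⊆ ℤ^d` every `x ∈ ℤ^d` can be
written in exactly one way as `x = s + t` with `s ∈ S`, `t ∈ T`. -/
def Tiles {d : ℕ} (S : Finset (Fin d → ℤ)) : Prop :=
  ∃ T : Set (Fin d → ℤ), ∀ x : Fin d → ℤ,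
    ∃! p : (Fin d → ℤ) × (Fin d → ℤ), p.1 ∈ S ∧ p.2 ∈ T ∧ x = p.1 + p.2

/-- the cube `[n]^d = {1, …, n}^d` -/
noncomputable def cube (d n : ℕ) : Finset (Fin d → ℤ) :=
  Fintype.piFinset fun _ => Finset.Icc 1 (n : ℤ)

open Classical in
/-- `t_{n,d}`: the number of subsets `S` of `[n]^d` that tile `ℤ^d` by translations -/
noncomputable def t (n d : ℕ) : ℕ := ((cube d n).powerset.filter fun S => Tiles S).card

theorem tiles_SS {s n k : ℕ} (hn : 1 ≤ n) (hs : 1 ≤ s) (a : Fin k → ℤ) (p : Par n k)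
    (f : Fin s → Y n k → Fin 3) : Tiles (SS hn a p f) := by
  refine ⟨Big s n k a p, fun x => ?_⟩
  obtain ⟨z, ⟨hz, hxz⟩, hu⟩ := SS_trans hn hs a p f x
  refine ⟨(z, x - z), ⟨hz, hxz, by simp⟩, ?_⟩
  rintro ⟨y, w⟩ ⟨hy, hw, rfl⟩
  simp only at hy hw
  have h1 : y = z := hu y ⟨hy, by simpa using hw⟩
  subst h1
  simp

theorem lower (k : ℕ) : ∃ c : ℝ, 0 < c ∧ ∃ n0 : ℕ, ∀ n ≥ n0, 3 ∣ n →
    c * (n : ℝ) ^ ((k + 1).choose 2) * ((3 : ℝ) ^ ((1 : ℝ) / 3)) ^ (n ^ (k + 1)) ≤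
      t n (k + 1) := by
  classical
  obtain ⟨s0, hs0⟩ := eventually_small ((k + 1).choose 2)
  refine ⟨1 / 2 ^ (k + 1), by positivity, 3 * (s0 + 1), ?_⟩
  rintro n hn0 ⟨s, rfl⟩
  have hs : s0 + 1 ≤ s := by omega
  have hs1 : 1 ≤ s := by omega
  have hn : 1 ≤ 3 * s := by omega
  have hsR : (1 : ℝ) ≤ s := by exact_mod_cast hs1
  -- the powers of three
  have hpow : ((3 : ℝ) ^ ((1 : ℝ) / 3)) ^ ((3 * s) ^ (k + 1)) = 3 ^ (s * (3 * s) ^ k) := by
    have h1 : (3 * s) ^ (k + 1) = 3 * (s * (3 * s) ^ k) := by ring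
    rw [h1, pow_mul, ← Real.rpow_natCast ((3 : ℝ) ^ ((1 : ℝ) / 3)) 3, ← Real.rpow_mul (by norm_num)]
    norm_num
  rw [hpow]
  have hN : (Fintype.card (Idx (3 * s) k) : ℝ) =
      ((3 * s - 1 : ℕ) : ℝ) ^ k * ((3 * s : ℕ) : ℝ) ^ (k.choose 2) := by
    rw [card_Idx]
    push_cast
    ring
  have hch : (k + 1).choose 2 = k + k.choose 2 := by
    rw [Nat.choose_succ_succ' k 1, Nat.choose_one_right]
  have hsub : ((3 * s - 1 : ℕ) : ℝ) = 3 * s - 1 := by
    rw [Nat.cast_sub (by omega)]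
    push_cast
    ring
  -- upper bound for the number of lattices
  have hNle : (Fintype.card (Idx (3 * s) k) : ℝ) ≤ (3 * (s : ℝ)) ^ ((k + 1).choose 2) := by
    rw [hN, hch, pow_add, hsub]
    push_cast
    apply mul_le_mul_of_nonneg_right _ (by positivity)
    apply pow_le_pow_left₀ (by linarith)
    linarith
  -- lower bound for the number of lattices
  have hNge : 1 / 2 ^ k * (3 * (s : ℝ)) ^ ((k + 1).choose 2) ≤
      (Fintype.card (Idx (3 * s) k) : ℝ) := by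
    rw [hN, hch, pow_add, hsub]
    push_cast
    rw [← mul_assoc]
    apply mul_le_mul_of_nonneg_right _ (by positivity)
    rw [one_div, ← inv_pow, ← mul_pow]
    apply pow_le_pow_left₀ (by positivity)
    linarith
  have hsmall := hs0 s (by omega)
  have hmain := union_ge (s := s) (n := 3 * s) (k := k) hn hs1
  have ht : ((univ.biUnion fun q : Idx (3 * s) k => FF hn s q).card : ℝ) ≤ t (3 * s) (k + 1) := by
    have : (univ.biUnion fun q : Idx (3 * s) k => FF hn s q) ⊆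
        (cube (k + 1) (3 * s)).powerset.filter fun S => Tiles S := by
      intro S hS
      obtain ⟨q, _, hq⟩ := mem_biUnion.1 hS
      unfold FF at hq
      obtain ⟨f, _, rfl⟩ := mem_image.1 hq
      rw [mem_filter, mem_powerset]
      exact ⟨SS_subset hn rfl _ _ f, tiles_SS hn hs1 _ _ f⟩
    exact_mod_cast card_le_card this
  refine le_trans ?_ (hmain.trans ht)
  set N : ℝ := (Fintype.card (Idx (3 * s) k) : ℝ) with hNdef
  set P : ℝ := (3 : ℝ) ^ (s * (3 * s) ^ k) with hP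
  have hP0 : 0 < P := by positivity
  have hN0 : 0 ≤ N := by positivity
  have h1 : N * ((8 / 9 : ℝ) ^ s * P) ≤ 1 / 2 * P := by
    calc N * ((8 / 9 : ℝ) ^ s * P) = N * (8 / 9 : ℝ) ^ s * P := by ring
      _ ≤ (3 * (s : ℝ)) ^ ((k + 1).choose 2) * (8 / 9 : ℝ) ^ s * P := by
          apply mul_le_mul_of_nonneg_right _ hP0.le
          exact mul_le_mul_of_nonneg_right hNle (by positivity)
      _ ≤ 1 / 2 * P := mul_le_mul_of_nonneg_right hsmall hP0.le
  push_cast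
  calc 1 / 2 ^ (k + 1) * (3 * (s : ℝ)) ^ ((k + 1).choose 2) * P
      = (1 / 2 ^ k * (3 * (s : ℝ)) ^ ((k + 1).choose 2)) * (1 / 2 * P) := by
        rw [pow_succ]; field_simp
    _ ≤ N * (1 / 2 * P) := mul_le_mul_of_nonneg_right hNge (by positivity)
    _ ≤ N * (P - N * ((8 / 9 : ℝ) ^ s * P)) := by
        apply mul_le_mul_of_nonneg_left _ hN0
        linarith

/-- **Theorem (answer to Q2).** For every `d ≥ 1` there is `c > 0` such that
`t_{n,d} ≥ c n^(d(d-1)/2) (3^(1/3))^(n^d)` for all large multiples `n` of three; consequently, for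
every `d ≥ 3`, the bound `t_{n,d} = O(n^(d-1) (3^(1/3))^(n^d))` is false. -/
theorem result :
    (∀ d : ℕ, 1 ≤ d → ∃ c : ℝ, 0 < c ∧ ∃ n0 : ℕ, ∀ n ≥ n0, 3 ∣ n →
      c * (n : ℝ) ^ (d * (d - 1) / 2) * ((3 : ℝ) ^ ((1 : ℝ) / 3)) ^ (n ^ d) ≤ t n d) ∧
    ∀ d : ℕ, 3 ≤ d → ¬ ∃ K : ℝ, ∀ n : ℕ, 1 ≤ n →
      (t n d : ℝ) ≤ K * (n : ℝ) ^ (d - 1) * ((3 : ℝ) ^ ((1 : ℝ) / 3)) ^ (n ^ d) := by
  have first : ∀ d : ℕ, 1 ≤ d → ∃ c : ℝ, 0 < c ∧ ∃ n0 : ℕ, ∀ n ≥ n0, 3 ∣ n →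
      c * (n : ℝ) ^ (d * (d - 1) / 2) * ((3 : ℝ) ^ ((1 : ℝ) / 3)) ^ (n ^ d) ≤ t n d := by
    intro d hd
    obtain ⟨k, rfl⟩ : ∃ k, d = k + 1 := ⟨d - 1, by omega⟩
    rw [← Nat.choose_two_right]
    exact lower k
  refine ⟨first, ?_⟩
  rintro d hd ⟨K, hK⟩
  obtain ⟨c, hc, n0, hn0⟩ := first d (by omega)
  -- the exponent is larger by at least one
  have hexp : d - 1 + 1 ≤ d * (d - 1) / 2 := by
    rw [Nat.le_div_iff_mul_le (by norm_num)]
    have h1 : 2 ≤ d - 1 := by omega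
    have h2 : d - 1 + 1 = d := by omega
    rw [h2]
    exact Nat.mul_le_mul_left d h1
  obtain ⟨m, hm⟩ := exists_nat_gt (K / c)
  set n := 3 * (n0 + m + 1) with hndef
  have h1 := hn0 n (by omega) ⟨_, rfl⟩
  have h2 := hK n (by omega)
  have h3 := h1.trans h2
  have hP : (0 : ℝ) < ((3 : ℝ) ^ ((1 : ℝ) / 3)) ^ (n ^ d) := by positivity
  have h4 := le_of_mul_le_mul_right h3 hP
  have hn1 : (1 : ℝ) ≤ n := by
    have : 1 ≤ n := by omega
    exact_mod_cast this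
  have h5 : c * (n : ℝ) ^ (d - 1 + 1) ≤ K * (n : ℝ) ^ (d - 1) :=
    le_trans (mul_le_mul_of_nonneg_left (pow_le_pow_right₀ hn1 hexp) hc.le) h4
  have hp : (0 : ℝ) < (n : ℝ) ^ (d - 1) := by positivity
  have h6 : (c * n) * (n : ℝ) ^ (d - 1) ≤ K * (n : ℝ) ^ (d - 1) := by
    rw [pow_succ] at h5
    linarith
  have h7 := le_of_mul_le_mul_right h6 hp
  have h8 : (m : ℝ) ≤ n := by
    have : m ≤ n := by omega
    exact_mod_cast this
  rw [div_lt_iff₀ hc] at hm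
  nlinarith

end Pool.Agent.Results.MP_13da68_co.ManyLattices
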